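import Pool.Agent.H.MP_b296a0_co.C

namespace Pool.Agent.Results.MP_b296a0_co.Bounded

open scoped Classical in
/-- Membership in the class `B(l)`: connected, exactly two distinct degrees, exactly three
distinct adjacency eigenvalues, all of them at least `-l`. -/
def InB (l : ℝ) {n : ℕ} (G : SimpleGraph (Fin n)) : Prop :=
  G.Connected ∧ (Set.range fun v => G.degree v).ncard = 2 ∧
    (spectrum ℝ (G.adjMatrix ℝ)).ncard = 3 ∧ ∀ μ ∈ spectrum ℝ (G.adjMatrix ℝ), -l ≤ μ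

theorem result (l : ℝ) (_hl : 0 < l) :
    (∀ (n : ℕ) (G : SimpleGraph (Fin n)), InB l G → (n : ℝ) ≤ (2000 * l ^ 3) ^ 7) ∧
      {p : Σ n : ℕ, SimpleGraph (Fin n) | InB l p.2}.Finite := by
  have h : ∀ (n : ℕ) (G : SimpleGraph (Fin n)), InB l G → (n : ℝ) ≤ (2000 * l ^ 3) ^ 7 := by
    classical
    rintro n G ⟨a, b, c, d⟩
    simpa using Pool.Agent.H.MP_b296a0_co.bound G a (by convert b) (by convert c) (by convert d)
  refine ⟨h, ((Set.finite_Iic ⌊(2000 * l ^ 3) ^ 7⌋₊).biUnion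
    fun n _ => Set.finite_range (Sigma.mk n)).subset fun p hp => ?_⟩
  exact Set.mem_biUnion (Nat.le_floor (h _ _ hp)) ⟨p.2, rfl⟩

end Pool.Agent.Results.MP_b296a0_co.Bounded
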